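import Pool.Agent.Y197.LR.Stm

/-!
Project LR: growth of the crossing probabilities of rectangles.
-/

set_option autoImplicit false
set_option linter.all false

namespace Pool.Agent.Y845.LR.GR

open Pool.Agent.Y197.LR H974

lemma split_le (n w k : ℤ) (hw : 0 < w) (hk : 0 < k) :
    hh (1/2) (w + k) n ≤ hh (1/2) w n * hh (1/2) k n := by
  set U := RE 0 (w + k) 0 n with hU
  have s0 : LRE 0 (w + k) 0 n ⊆ U := LRE_subset_RE
  have s1 : LRE 0 w 0 n ⊆ U := by
    rintro ⟨x, y, _ | _⟩ h8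
    · simp only [mem_RE_false, mem_LRE_false, hU] at h8 ⊢; omega
    · simp only [mem_RE_true, mem_LRE_true, hU] at h8 ⊢; omega
  have s2 : LRE w (w + k) 0 n ⊆ U := by
    rintro ⟨x, y, _ | _⟩ h8
    · simp only [mem_RE_false, mem_LRE_false, hU] at h8 ⊢; omega
    · simp only [mem_RE_true, mem_LRE_true, hU] at h8 ⊢; omega
  have hd : Disjoint (LRE 0 w 0 n) (LRE w (w + k) 0 n) := by
    rw [Finset.disjoint_left]
    rintro ⟨x, y, _ | _⟩ h8 h9
    · simp only [mem_LRE_false] at h8 h9; omega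
    · simp only [mem_LRE_true] at h8 h9; omega
  have e0 : Pr (fun _ => 1/2) U (LRc 0 (w + k) 0 n) = hh (1/2) (w + k) n := by
    rw [pr_LRc (1/2) s0, sub_zero, sub_zero]
  have e1 : Pr (fun _ => 1/2) U (LRc 0 w 0 n) = hh (1/2) w n := by
    rw [pr_LRc (1/2) s1, sub_zero, sub_zero]
  have e2 : Pr (fun _ => 1/2) U (LRc w (w + k) 0 n) = hh (1/2) k n := by
    rw [pr_LRc (1/2) s2, sub_zero, add_sub_cancel_left]
  have hloc1 : ∀ F, F ⊆ U → (LRc 0 w 0 n F ↔ LRc 0 w 0 n (F ∩ LRE 0 w 0 n)) := fun F _ =>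
    LRc_local (Finset.Subset.refl _)
  have hloc2 : ∀ F, F ⊆ U → (LRc w (w + k) 0 n F ↔ LRc w (w + k) 0 n (F ∩ LRE w (w + k) 0 n)) :=
    fun F _ => LRc_local (Finset.Subset.refl _)
  have e3 := Pr_indep (p := fun _ => (1/2 : ℝ)) s1 s2 hd hloc1 hloc2
  rw [← e0, ← e1, ← e2, ← e3]
  refine Pr_mono (okq (by norm_num) (by norm_num)) ?_
  intro F _ hF
  exact ⟨LRc_sub le_rfl hw (by omega) le_rfl le_rfl hF,
    LRc_sub (by omega) (by omega) le_rfl le_rfl le_rfl hF⟩

lemma two_le (n : ℤ) (hn : 1 ≤ n) : hh (1/2) (2 * n) n ≤ 1 / 2 := by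
  have h := hh_dual (q := 1/2) (w := 2 * n) (h := n) (by omega) (by omega)
  have e1 : (1:ℝ) - 1/2 = 1/2 := by norm_num
  rw [e1] at h
  have h2 : hh (1/2) (n + 1) n ≤ hh (1/2) (n + 1) (2 * n - 1) :=
    hh_mono (by norm_num) (by norm_num) (by omega) le_rfl (by omega)
  rw [hh_half n (by omega)] at h2
  linarith

theorem main (h : S_RSW) : S_GR := by
  obtain ⟨κ0, hκ0, hκ⟩ := h
  have hle1 : κ0 ≤ 1 := (hκ 1 1 le_rfl le_rfl (by norm_num)).trans
    (hh_le_one (by norm_num) (by norm_num) _ _)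
  refine ⟨κ0 / 4, by positivity, by linarith, ?_, ?_, ?_⟩
  · intro n w hn hw hwn
    have := hκ n w hn hw hwn
    linarith
  · intro n w hn hw
    refine (split_le n w (2 * n) (by omega) (by omega)).trans ?_
    have h1 := two_le n hn
    have h2 := hh_nonneg (q := 1/2) (by norm_num) (by norm_num) w n
    nlinarith
  · intro n w hn hw
    have h1 := hh_glue (q := 1/2) (by norm_num) (by norm_num) (w1 := w) (w2 := 2 * n) (v := n)
      (h := n) (by omega) hw (by omega) (by omega)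
    rw [show w + 2 * n - n = w + n by ring] at h1
    have h2 := hκ n (2 * n) hn (by omega) (by omega)
    have h3 := hh_square n (by omega)
    have h4 := hh_nonneg (q := 1/2) (by norm_num) (by norm_num) w n
    refine le_trans ?_ h1
    have h5 : κ0 * (1 / 2) ≤ hh (1/2) (2 * n) n * hh (1/2) n n :=
      mul_le_mul h2 h3 (by norm_num) (hκ0.le.trans h2)
    calc κ0 / 4 * hh (1/2) w n ≤ (κ0 * (1 / 2)) * hh (1/2) w n := by
          apply mul_le_mul_of_nonneg_right _ h4
          linarith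
      _ ≤ (hh (1/2) (2 * n) n * hh (1/2) n n) * hh (1/2) w n :=
          mul_le_mul_of_nonneg_right h5 h4
      _ = _ := by ring

end Pool.Agent.Y845.LR.GR
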