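import Pool.Agent.Y197.LR.Stm

/-!
Project LR: RSW for all heights.
-/

set_option autoImplicit false
set_option linter.all false

namespace Pool.Agent.Y845.LR

open Pool.Agent.Y197.LR H974

lemma glue_bd {w1 w2 v h : ℤ} {a b c : ℝ} (ha : 0 ≤ a) (hb : 0 ≤ b) (hc : 0 ≤ c) (hv : 0 < v)
    (hv1 : v ≤ w1) (hv2 : v ≤ w2) (hh0 : 0 < h) (h1 : a ≤ hh (1/2) w1 h)
    (h2 : b ≤ hh (1/2) w2 h) (h3 : c ≤ hh (1/2) h v) : a * b * c ≤ hh (1/2) (w1 + w2 - v) h := by
  refine le_trans ?_ (hh_glue (q := 1/2) (by norm_num) (by norm_num) hv hv1 hv2 hh0)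
  have h4 := hh_nonneg (q := 1/2) (by norm_num) (by norm_num) w1 h
  have h5 := hh_nonneg (q := 1/2) (by norm_num) (by norm_num) w2 h
  exact mul_le_mul (mul_le_mul h1 h2 hb h4) h3 hc (mul_nonneg h4 h5)

theorem rsw_all : S_RSW := by
  refine ⟨(1/2) ^ 200, by positivity, fun n w hn hw hwn => ?_⟩
  have hpow : ∀ k : ℕ, k ≤ 200 → ((1:ℝ)/2) ^ 200 ≤ (1/2) ^ k := fun k hk =>
    pow_le_pow_of_le_one (by norm_num) (by norm_num) hk
  rcases eq_or_lt_of_le hn with rfl | hn2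
  · have e2 : hh (1/2) 2 1 = 1/2 := hh_half 1 (by norm_num)
    have e1 : 1/2 ≤ hh (1/2) 1 1 := hh_square 1 (by norm_num)
    have e3 : (1/2:ℝ) * (1/2) * (1/2) ≤ hh (1/2) (2 + 2 - 1) 1 :=
      glue_bd (by norm_num) (by norm_num) (by norm_num) (by norm_num) (by norm_num) (by norm_num)
        (by norm_num) e2.ge e2.ge e1
    have e5 : (1/8:ℝ) * (1/8) * (1/2) ≤ hh (1/2) (3 + 3 - 1) 1 := by
      have e3' : (1/8:ℝ) ≤ hh (1/2) 3 1 := by
        norm_num at e3 ⊢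
        exact e3
      exact glue_bd (by norm_num) (by norm_num) (by norm_num) (by norm_num) (by norm_num)
        (by norm_num) (by norm_num) e3' e3' e1
    have e9 : (1/128:ℝ) * (1/128) * (1/2) ≤ hh (1/2) (5 + 5 - 1) 1 := by
      have e5' : (1/128:ℝ) ≤ hh (1/2) 5 1 := by
        norm_num at e5 ⊢
        exact e5
      exact glue_bd (by norm_num) (by norm_num) (by norm_num) (by norm_num) (by norm_num)
        (by norm_num) (by norm_num) e5' e5' e1
    have e10 : hh (1/2) (5 + 5 - 1) 1 ≤ hh (1/2) w 1 :=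
      hh_mono (by norm_num) (by norm_num) (by omega) (by omega) le_rfl
    calc ((1:ℝ)/2) ^ 200 ≤ (1/2) ^ 15 := hpow 15 (by norm_num)
      _ = (1/128:ℝ) * (1/128) * (1/2) := by norm_num
      _ ≤ _ := e9.trans e10
  · set m := n / 2 with hm
    have hm1 : 1 ≤ m := by omega
    have hm2 : 2 * m ≤ n := by omega
    have hm3 : n ≤ 2 * m + 1 := by omega
    have r1 : (1/2:ℝ) ^ 47 ≤ hh (1/2) (8 * m) n := rsw (by omega) (by omega) le_rfl hm2
    have e1 : 1/2 ≤ hh (1/2) n n := hh_square n (by omega)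
    have e2 : (1/2:ℝ) ^ 47 * (1/2) ^ 47 * (1/2) ≤ hh (1/2) (8 * m + 8 * m - n) n :=
      glue_bd (by positivity) (by positivity) (by norm_num) (by omega) (by omega) (by omega)
        (by omega) r1 r1 e1
    have e3 : ((1/2:ℝ) ^ 47 * (1/2) ^ 47 * (1/2)) * (1/2) ^ 47 * (1/2) ≤
        hh (1/2) (8 * m + 8 * m - n + 8 * m - n) n :=
      glue_bd (by positivity) (by positivity) (by norm_num) (by omega) (by omega) (by omega)
        (by omega) e2 r1 e1
    have e4 : hh (1/2) (8 * m + 8 * m - n + 8 * m - n) n ≤ hh (1/2) w n :=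
      hh_mono (by norm_num) (by norm_num) (by omega) (by omega) le_rfl
    calc ((1:ℝ)/2) ^ 200 ≤ (1/2) ^ 143 := hpow 143 (by norm_num)
      _ = ((1/2:ℝ) ^ 47 * (1/2) ^ 47 * (1/2)) * (1/2) ^ 47 * (1/2) := by ring
      _ ≤ _ := e3.trans e4

theorem main : S_RSW := rsw_all

end Pool.Agent.Y845.LR
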